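import Pool.Agent.W78.EG.Defs

/-!
Project EG (helper78), task EG-FINN: equidistribution modulo `k` of `Ω(n^2+tn+c)`
(port of Pool.Agent.W721.EX.Finn).
-/

set_option autoImplicit false

namespace Pool.Agent.W589.EG

open Finset Filter
open Pool.Agent.W78.EG (SP wn fv Cd Fd S_CHR S_SLOWQ S_SCNT S_FINN)
open ArithmeticFunction (cardFactors)

variable {t c : ℤ}

/-- what is used of the hypotheses on `t`, `c` -/
structure Bs (t c : ℤ) : Prop where
  t0 : 0 ≤ t
  t1 : t ≤ 1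
  c1 : 1 ≤ c

lemma bs_of_fd {f : ℕ} {χ : DirichletCharacter ℂ f} (h : Fd t c f χ) : Bs t c := by
  have h1 := h.disc
  have h2 : (3 : ℤ) ≤ f := by exact_mod_cast h.three
  rcases h.tt with rfl | rfl
  · exact ⟨le_rfl, by norm_num, by omega⟩
  · exact ⟨by norm_num, le_rfl, by omega⟩

lemma fv_cast (h : Bs t c) (n : ℕ) : ((fv t c n : ℕ) : ℤ) = (n : ℤ) ^ 2 + t * n + c := by
  unfold fv
  rw [Int.toNat_of_nonneg]
  have h1 : 0 ≤ t * (n : ℤ) := mul_nonneg h.t0 (Int.natCast_nonneg n)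
  have h2 : 0 ≤ (n : ℤ) ^ 2 := sq_nonneg _
  linarith [h.c1]

lemma fv_mono (h : Bs t c) : StrictMono (fv t c) := by
  apply strictMono_nat_of_lt_succ
  intro n
  have h1 : ((fv t c n : ℕ) : ℤ) < ((fv t c (n + 1) : ℕ) : ℤ) := by
    rw [fv_cast h, fv_cast h]
    push_cast
    have := h.t0
    have : (0 : ℤ) ≤ n := Int.natCast_nonneg n
    nlinarith
  exact_mod_cast h1

lemma fv_pos (h : Bs t c) (n : ℕ) : 1 ≤ fv t c n := by
  have h1 : (1 : ℤ) ≤ ((fv t c n : ℕ) : ℤ) := by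
    rw [fv_cast h]
    have h1 : 0 ≤ t * (n : ℤ) := mul_nonneg h.t0 (Int.natCast_nonneg n)
    have h2 : 0 ≤ (n : ℤ) ^ 2 := sq_nonneg _
    linarith [h.c1]
  exact_mod_cast h1

lemma sq_lt_fv (h : Bs t c) (n : ℕ) : n ^ 2 < fv t c n := by
  have h1 : ((n ^ 2 : ℕ) : ℤ) < ((fv t c n : ℕ) : ℤ) := by
    rw [fv_cast h]
    push_cast
    have h1 : 0 ≤ t * (n : ℤ) := mul_nonneg h.t0 (Int.natCast_nonneg n)
    linarith [h.c1]
  exact_mod_cast h1

lemma fv_le (h : Bs t c) {N : ℕ} (hN : 1 ≤ N) : fv t c N ≤ (2 + c.toNat) * N ^ 2 := by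
  have hc : ((c.toNat : ℕ) : ℤ) = c := Int.toNat_of_nonneg (by linarith [h.c1])
  have h1 : ((fv t c N : ℕ) : ℤ) ≤ (((2 + c.toNat) * N ^ 2 : ℕ) : ℤ) := by
    rw [fv_cast h]
    push_cast
    rw [hc]
    have hN' : (1 : ℤ) ≤ N := by exact_mod_cast hN
    have h2 : t * (N : ℤ) ≤ N := by
      calc t * (N : ℤ) ≤ 1 * N := mul_le_mul_of_nonneg_right h.t1 (by linarith)
        _ = N := one_mul _
    have h3 : (N : ℤ) ≤ (N : ℤ) ^ 2 := by nlinarith
    have h4 : c ≤ c * (N : ℤ) ^ 2 := by nlinarith [h.c1]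
    nlinarith
  exact_mod_cast h1

lemma fv_zero (h : Bs t c) : fv t c 0 = c.toNat := by
  unfold fv
  simp

/-- the inverse of `fv` -/
noncomputable def iv (t c : ℤ) : ℕ → ℕ := Function.invFun (fv t c)

lemma iv_fv (h : Bs t c) (n : ℕ) : iv t c (fv t c n) = n :=
  Function.leftInverse_invFun (fv_mono h).injective n

lemma int_iff (h : Bs t c) (p : ℕ × ℕ) (n : ℕ) :
    ((p.1 * p.2 : ℤ) = (n : ℤ) ^ 2 + t * n + c) ↔ p.1 * p.2 = fv t c n := by
  rw [← fv_cast h]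
  constructor
  · intro h1; exact_mod_cast h1
  · intro h1; exact_mod_cast h1

open scoped Classical in
lemma mem_SP (h : Bs t c) {N : ℕ} {p : ℕ × ℕ} : p ∈ SP t c N ↔
    1 ≤ p.1 ∧ p.1 ≤ N ∧ 1 ≤ p.2 ∧ p.2 ≤ N ∧ ∃ n : ℕ, 0 < 2 * (n : ℤ) + t ∧ p.1 * p.2 = fv t c n := by
  unfold SP
  rw [mem_filter, mem_product, mem_Icc, mem_Icc]
  constructor
  · rintro ⟨⟨⟨h1, h2⟩, h3, h4⟩, n, h5, h6⟩
    exact ⟨h1, h2, h3, h4, n, h5, (int_iff h p n).1 h6⟩
  · rintro ⟨h1, h2, h3, h4, n, h5, h6⟩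
    exact ⟨⟨⟨h1, h2⟩, h3, h4⟩, n, h5, (int_iff h p n).2 h6⟩

open scoped Classical in
/-- the pairs of the factorisations of `n ^ 2 + t n + c`, `1 ≤ n ≤ N` -/
noncomputable def TP (t c : ℤ) (N : ℕ) : Finset (ℕ × ℕ) :=
  ((Icc 1 (fv t c N)) ×ˢ (Icc 1 (fv t c N))).filter
    (fun p => ∃ n : ℕ, 1 ≤ n ∧ n ≤ N ∧ p.1 * p.2 = fv t c n)

lemma pos_of_mul (h : Bs t c) {p : ℕ × ℕ} {n : ℕ} (h3 : p.1 * p.2 = fv t c n) :
    1 ≤ p.1 ∧ 1 ≤ p.2 := by
  have h0 := fv_pos h n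
  constructor
  · exact Nat.one_le_iff_ne_zero.2 (by rintro h; rw [h, Nat.zero_mul] at h3; omega)
  · exact Nat.one_le_iff_ne_zero.2 (by rintro h; rw [h, Nat.mul_zero] at h3; omega)

open scoped Classical in
lemma mem_TP (h : Bs t c) {N : ℕ} {p : ℕ × ℕ} :
    p ∈ TP t c N ↔ ∃ n : ℕ, 1 ≤ n ∧ n ≤ N ∧ p.1 * p.2 = fv t c n := by
  unfold TP
  rw [mem_filter, mem_product, mem_Icc, mem_Icc]
  constructor
  · exact fun h => h.2
  · intro h'
    refine ⟨?_, h'⟩
    obtain ⟨n, h1, h2, h3⟩ := h'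
    have h4 : fv t c n ≤ fv t c N := (fv_mono h).monotone h2
    obtain ⟨h5, h6⟩ := pos_of_mul h h3
    have h7 : p.1 ≤ p.1 * p.2 := Nat.le_mul_of_pos_right _ h6
    have h8 : p.2 ≤ p.1 * p.2 := Nat.le_mul_of_pos_left _ h5
    exact ⟨⟨h5, by omega⟩, ⟨h6, by omega⟩⟩

lemma sum_TPc (h : Bs t c) (N : ℕ) (F : ℕ → ℕ → ℂ) :
    ∑ n ∈ Icc 1 N, ∑ d ∈ Nat.divisors (fv t c n), F d (fv t c n / d) =
      ∑ p ∈ TP t c N, F p.1 p.2 := by
  rw [Finset.sum_sigma']
  refine Finset.sum_nbij' (fun x => (x.2, fv t c x.1 / x.2))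
    (fun p => ⟨iv t c (p.1 * p.2), p.1⟩) ?_ ?_ ?_ ?_ ?_
  · rintro ⟨n, d⟩ hx
    rw [mem_sigma, mem_Icc] at hx
    simp only at hx
    rw [mem_TP h]
    exact ⟨n, hx.1.1, hx.1.2, Nat.mul_div_cancel' (Nat.dvd_of_mem_divisors hx.2)⟩
  · rintro ⟨a, b⟩ hp
    rw [mem_TP h] at hp
    obtain ⟨n, h1, h2, h3⟩ := hp
    simp only at h3
    rw [mem_sigma, mem_Icc]
    simp only
    rw [h3, iv_fv h]
    refine ⟨⟨h1, h2⟩, ?_⟩
    rw [Nat.mem_divisors]
    have := fv_pos h n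
    exact ⟨⟨b, h3.symm⟩, by omega⟩
  · rintro ⟨n, d⟩ hx
    rw [mem_sigma, mem_Icc] at hx
    simp only at hx
    simp only
    rw [Nat.mul_div_cancel' (Nat.dvd_of_mem_divisors hx.2), iv_fv h]
  · rintro ⟨a, b⟩ hp
    rw [mem_TP h] at hp
    obtain ⟨n, h1, h2, h3⟩ := hp
    have ha := (pos_of_mul h h3).1
    simp only at h3 ha
    simp only
    rw [h3, iv_fv h, ← h3, Nat.mul_div_cancel_left _ ha]
  · rintro ⟨n, d⟩ _
    rfl

open scoped Classical in
lemma tail2 (h : Bs t c) (h3 : S_SCNT t c) : ∃ C : ℝ, 0 ≤ C ∧ ∀ N : ℕ, 1 ≤ N →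
    ∑ p ∈ (TP t c N).filter (fun p => N < p.2), 1 / (max p.1 p.2 : ℝ) ≤ C := by
  obtain ⟨C, hC⟩ := h3
  have hC0 : 0 ≤ C := by
    have := hC 1 1 le_rfl le_rfl
    simp only [Nat.cast_one, mul_one, Real.sqrt_one] at this
    exact le_trans (Nat.cast_nonneg _) this
  set D : ℕ := 2 + c.toNat with hD
  have hD2 : 2 ≤ D := by omega
  refine ⟨2 * D * C * 2, by positivity, fun N hN => ?_⟩
  set U := (TP t c N).filter (fun p => N < p.2) with hU
  set g : ℕ × ℕ → ℕ := fun p => Nat.log 2 ((p.2 - 1) / N) with hg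
  have hNpos : (0 : ℝ) < N := by exact_mod_cast hN
  rw [← Finset.sum_fiberwise_of_maps_to (t := U.image g) (g := g)
    (fun p hp => mem_image_of_mem g hp)]
  have cell : ∀ k ∈ U.image g, ∑ p ∈ U with g p = k, 1 / (max p.1 p.2 : ℝ) ≤
      2 * D * C * (1 / 2) ^ k := by
    intro k _
    set V := U.filter (fun p => g p = k) with hV
    -- membership
    have hmem : ∀ p ∈ V, 2 ^ k * N + 1 ≤ p.2 ∧ p.2 ≤ 2 ^ (k + 1) * N ∧ 1 ≤ p.1 ∧
        p.1 ≤ D * N / 2 ^ k ∧ ∃ n : ℕ, 0 < 2 * (n : ℤ) + t ∧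
          (p.1 * p.2 : ℤ) = (n : ℤ) ^ 2 + t * n + c := by
      intro p hp
      rw [hV, mem_filter, hU, mem_filter, mem_TP h] at hp
      obtain ⟨⟨⟨n, hn1, hn2, hn3⟩, hp2⟩, hp3⟩ := hp
      have h0 : (p.2 - 1) / N ≠ 0 := by
        rw [Nat.div_ne_zero_iff]
        omega
      have h4 : 2 ^ k ≤ (p.2 - 1) / N := by
        rw [← hp3]
        exact Nat.pow_log_le_self 2 h0
      have h5 : (p.2 - 1) / N < 2 ^ (k + 1) := by
        rw [← hp3]
        exact Nat.lt_pow_succ_log_self (by norm_num) _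
      have h6 : 2 ^ k * N ≤ p.2 - 1 := (Nat.le_div_iff_mul_le (by omega)).1 h4
      have h7 : p.2 - 1 < 2 ^ (k + 1) * N := (Nat.div_lt_iff_lt_mul (by omega)).1 h5
      have h8 : fv t c n ≤ D * N ^ 2 := ((fv_mono h).monotone hn2).trans (fv_le h hN)
      obtain ⟨hp1, _⟩ := pos_of_mul h hn3
      refine ⟨by omega, by omega, hp1, ?_, n, ?_, (int_iff h p n).2 hn3⟩
      · rw [Nat.le_div_iff_mul_le (by positivity)]
        by_contra hcon
        have h9 : D * N + 1 ≤ p.1 * 2 ^ k := by omega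
        have h10 : p.1 * (2 ^ k * N + 1) ≤ p.1 * p.2 := Nat.mul_le_mul_left _ (by omega)
        have h11 : (D * N + 1) * N ≤ p.1 * 2 ^ k * N := Nat.mul_le_mul_right _ h9
        nlinarith
      · have : (1 : ℤ) ≤ n := by exact_mod_cast hn1
        linarith [h.t0]
    have hterm : ∀ p ∈ V, 1 / (max p.1 p.2 : ℝ) ≤ 1 / ((2 : ℝ) ^ k * N) := by
      intro p hp
      obtain ⟨h4, _⟩ := hmem p hp
      apply one_div_le_one_div_of_le (by positivity)
      refine le_trans ?_ (le_max_right _ _)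
      have : 2 ^ k * N ≤ p.2 := by omega
      exact_mod_cast this
    rcases Nat.eq_zero_or_pos (D * N / 2 ^ k) with hm | hm
    · have hVe : V = ∅ := by
        rw [Finset.eq_empty_iff_forall_notMem]
        intro p hp
        obtain ⟨_, _, h6, h7, _⟩ := hmem p hp
        omega
      rw [hVe, Finset.sum_empty]
      positivity
    · have hle : D * N / 2 ^ k ≤ D * (2 ^ (k + 1) * N) := by
        calc D * N / 2 ^ k ≤ D * N := Nat.div_le_self _ _
          _ = D * (1 * N) := by rw [one_mul]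
          _ ≤ D * (2 ^ (k + 1) * N) := by
            apply Nat.mul_le_mul_left
            apply Nat.mul_le_mul_right
            exact Nat.one_le_two_pow
      have hc := hC _ _ hm hle
      have hcard : (V.card : ℝ) ≤ C * Real.sqrt (((D * N / 2 ^ k : ℕ) : ℝ) *
          ((D * (2 ^ (k + 1) * N) : ℕ) : ℝ)) := by
        refine le_trans ?_ hc
        have : V ⊆ ((Icc 1 (D * N / 2 ^ k)) ×ˢ (Icc 1 (D * (2 ^ (k + 1) * N)))).filter
            (fun p => ∃ n : ℕ, 0 < 2 * (n : ℤ) + t ∧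
              (p.1 * p.2 : ℤ) = (n : ℤ) ^ 2 + t * n + c) := by
          intro p hp
          obtain ⟨h4, h5, h6, h7, h8⟩ := hmem p hp
          rw [mem_filter, mem_product, mem_Icc, mem_Icc]
          have h9 : 2 ^ (k + 1) * N ≤ D * (2 ^ (k + 1) * N) :=
            Nat.le_mul_of_pos_left _ (by omega)
          exact ⟨⟨⟨h6, h7⟩, ⟨by omega, h5.trans h9⟩⟩, h8⟩
        exact_mod_cast Finset.card_le_card this
      have hsqrt : Real.sqrt (((D * N / 2 ^ k : ℕ) : ℝ) *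
          ((D * (2 ^ (k + 1) * N) : ℕ) : ℝ)) ≤ 2 * D * N := by
        rw [Real.sqrt_le_left (by positivity)]
        have h12 : ((D * N / 2 ^ k : ℕ) : ℝ) ≤ ((D * N : ℕ) : ℝ) / ((2 ^ k : ℕ) : ℝ) :=
          Nat.cast_div_le
        calc ((D * N / 2 ^ k : ℕ) : ℝ) * ((D * (2 ^ (k + 1) * N) : ℕ) : ℝ) ≤
            ((D * N : ℕ) : ℝ) / ((2 ^ k : ℕ) : ℝ) * ((D * (2 ^ (k + 1) * N) : ℕ) : ℝ) :=
              mul_le_mul_of_nonneg_right h12 (Nat.cast_nonneg _)
          _ = 2 * (D * N) ^ 2 := by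
              push_cast
              have : (2 : ℝ) ^ k ≠ 0 := by positivity
              field_simp
              ring
          _ ≤ (2 * D * N) ^ 2 := by nlinarith [sq_nonneg ((D : ℝ) * N)]
      calc ∑ p ∈ V, 1 / (max p.1 p.2 : ℝ) ≤ ∑ p ∈ V, 1 / ((2 : ℝ) ^ k * N) :=
            Finset.sum_le_sum hterm
        _ = V.card * (1 / ((2 : ℝ) ^ k * N)) := by rw [Finset.sum_const, nsmul_eq_mul]
        _ ≤ (C * (2 * D * N)) * (1 / ((2 : ℝ) ^ k * N)) := by
            apply mul_le_mul_of_nonneg_right _ (by positivity)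
            exact hcard.trans (mul_le_mul_of_nonneg_left hsqrt hC0)
        _ = 2 * D * C * (1 / 2) ^ k := by
            rw [one_div_pow]
            have : (2 : ℝ) ^ k ≠ 0 := by positivity
            field_simp
  calc ∑ k ∈ U.image g, ∑ p ∈ U with g p = k, 1 / (max p.1 p.2 : ℝ) ≤
      ∑ k ∈ U.image g, 2 * D * C * (1 / 2) ^ k := Finset.sum_le_sum cell
    _ = 2 * D * C * ∑ k ∈ U.image g, (1 / 2 : ℝ) ^ k := by rw [Finset.mul_sum]
    _ ≤ 2 * D * C * 2 := by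
        apply mul_le_mul_of_nonneg_left _ (by positivity)
        exact sum_le_hasSum _ (fun i _ => by positivity) hasSum_geometric_two

open scoped Classical in
lemma tail (h : Bs t c) (h3 : S_SCNT t c) : ∃ C : ℝ, 0 ≤ C ∧ ∀ N : ℕ, 1 ≤ N →
    ∑ p ∈ TP t c N \ (TP t c N ∩ SP t c N), 1 / (max p.1 p.2 : ℝ) ≤ C := by
  obtain ⟨C, hC0, hC⟩ := tail2 h h3
  refine ⟨C + C, by positivity, fun N hN => ?_⟩
  have hsub : TP t c N \ (TP t c N ∩ SP t c N) ⊆
      (TP t c N).filter (fun p => N < p.2) ∪ (TP t c N).filter (fun p => N < p.1) := by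
    intro p hp
    rw [Finset.mem_sdiff] at hp
    obtain ⟨h1, h2⟩ := hp
    rw [mem_union, mem_filter, mem_filter]
    by_contra hcon
    push Not at hcon
    obtain ⟨h3, h4⟩ := hcon
    have h5 := h3 h1
    have h6 := h4 h1
    apply h2
    rw [mem_inter]
    refine ⟨h1, ?_⟩
    rw [mem_SP h]
    rw [mem_TP h] at h1
    obtain ⟨n, hn1, hn2, hn3⟩ := h1
    obtain ⟨h7, h8⟩ := pos_of_mul h hn3
    refine ⟨h7, h6, h8, h5, n, ?_, hn3⟩
    have : (1 : ℤ) ≤ n := by exact_mod_cast hn1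
    linarith [h.t0]
  have hswap : ∑ p ∈ (TP t c N).filter (fun p => N < p.1), 1 / (max p.1 p.2 : ℝ) =
      ∑ p ∈ (TP t c N).filter (fun p => N < p.2), 1 / (max p.1 p.2 : ℝ) := by
    refine Finset.sum_nbij' Prod.swap Prod.swap ?_ ?_ ?_ ?_ ?_
    · intro p hp
      rw [mem_filter, mem_TP h] at hp ⊢
      obtain ⟨⟨n, h1, h2, h3⟩, h4⟩ := hp
      exact ⟨⟨n, h1, h2, by rw [← h3]; exact Nat.mul_comm _ _⟩, h4⟩
    · intro p hp
      rw [mem_filter, mem_TP h] at hp ⊢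
      obtain ⟨⟨n, h1, h2, h3⟩, h4⟩ := hp
      exact ⟨⟨n, h1, h2, by rw [← h3]; exact Nat.mul_comm _ _⟩, h4⟩
    · intro p _; rfl
    · intro p _; rfl
    · intro p _
      rw [max_comm]
      rfl
  calc ∑ p ∈ TP t c N \ (TP t c N ∩ SP t c N), 1 / (max p.1 p.2 : ℝ) ≤
      ∑ p ∈ (TP t c N).filter (fun p => N < p.2) ∪ (TP t c N).filter (fun p => N < p.1),
        1 / (max p.1 p.2 : ℝ) :=
        Finset.sum_le_sum_of_subset_of_nonneg hsub (fun p _ _ => by positivity)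
    _ ≤ ∑ p ∈ (TP t c N).filter (fun p => N < p.2), 1 / (max p.1 p.2 : ℝ) +
        ∑ p ∈ (TP t c N).filter (fun p => N < p.1), 1 / (max p.1 p.2 : ℝ) := by
        rw [← Finset.sum_union_inter]
        exact le_add_of_nonneg_right (Finset.sum_nonneg fun p _ => by positivity)
    _ ≤ C + C := by
        rw [hswap]
        exact add_le_add (hC N hN) (hC N hN)

open scoped Classical in
/-- only the value `n = 0` is lost -/
lemma card_lost (h : Bs t c) (N : ℕ) :
    (SP t c N \ (TP t c N ∩ SP t c N)).card ≤ c.toNat * c.toNat := by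
  have hsub : SP t c N \ (TP t c N ∩ SP t c N) ⊆ (Icc 1 c.toNat) ×ˢ (Icc 1 c.toNat) := by
    intro p hp
    rw [Finset.mem_sdiff] at hp
    obtain ⟨h1, h2⟩ := hp
    have h1' := h1
    rw [mem_SP h] at h1
    obtain ⟨p1, p2, p3, p4, n, hn1, hn2⟩ := h1
    have hn0 : n = 0 := by
      by_contra hne
      apply h2
      rw [mem_inter]
      refine ⟨?_, h1'⟩
      rw [mem_TP h]
      refine ⟨n, by omega, ?_, hn2⟩
      by_contra hlt
      have e1 : p.1 * p.2 ≤ N * N := Nat.mul_le_mul p2 p4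
      have e2 := sq_lt_fv h n
      nlinarith
    rw [hn0, fv_zero h] at hn2
    rw [mem_product, mem_Icc, mem_Icc]
    have e3 : p.1 ≤ p.1 * p.2 := Nat.le_mul_of_pos_right _ p3
    have e4 : p.2 ≤ p.1 * p.2 := Nat.le_mul_of_pos_left _ p1
    exact ⟨⟨p1, by omega⟩, p3, by omega⟩
  refine (Finset.card_le_card hsub).trans ?_
  rw [Finset.card_product, Nat.card_Icc]
  simp

/-- the summand -/
noncomputable def uu (b : ℂ) (p : ℕ × ℕ) : ℂ :=
  b ^ cardFactors p.1 * b ^ cardFactors p.2 / ((max p.1 p.2 : ℕ) : ℂ)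

lemma norm_uu {b : ℂ} (hb : ‖b‖ = 1) (p : ℕ × ℕ) : ‖uu b p‖ = 1 / (max p.1 p.2 : ℝ) := by
  unfold uu
  rw [norm_div, norm_mul, norm_pow, norm_pow, hb, one_pow, one_pow, mul_one, Complex.norm_natCast,
    Nat.cast_max]

/-- the sum over `n` -/
noncomputable def Tl (t c : ℤ) (b : ℂ) (q a N : ℕ) : ℂ :=
  ∑ n ∈ (Icc 1 N).filter (fun n => n ≡ a [MOD q]), b ^ cardFactors (fv t c n) * (wn t c n : ℂ)

lemma Tl_eq (h : Bs t c) (b : ℂ) (q a N : ℕ) : Tl t c b q a N =
    ∑ p ∈ TP t c N, if iv t c (p.1 * p.2) ≡ a [MOD q] then uu b p else 0 := by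
  have := sum_TPc h N (fun d e => if iv t c (d * e) ≡ a [MOD q] then uu b (d, e) else 0)
  rw [← this]
  unfold Tl
  rw [Finset.sum_filter]
  refine Finset.sum_congr rfl fun n hn => ?_
  have hd : ∀ d ∈ Nat.divisors (fv t c n), d * (fv t c n / d) = fv t c n := fun d hd =>
    Nat.mul_div_cancel' (Nat.dvd_of_mem_divisors hd)
  by_cases hna : n ≡ a [MOD q]
  · rw [if_pos hna]
    have hwn : (wn t c n : ℂ) = ∑ d ∈ Nat.divisors (fv t c n),
        1 / ((max d (fv t c n / d) : ℕ) : ℂ) := by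
      unfold wn
      rw [Complex.ofReal_sum]
      refine Finset.sum_congr rfl fun d _ => ?_
      rw [Complex.ofReal_div, Complex.ofReal_one, Complex.ofReal_natCast]
    rw [hwn, Finset.mul_sum]
    refine Finset.sum_congr rfl fun d hdm => ?_
    rw [hd d hdm, iv_fv h, if_pos hna]
    unfold uu
    simp only
    have hd1 := hd d hdm
    have hf := fv_pos h n
    have hd2 : d ≠ 0 := by
      rintro rfl
      rw [Nat.zero_mul] at hd1
      omega
    have hd3 : fv t c n / d ≠ 0 := by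
      intro h
      rw [h, Nat.mul_zero] at hd1
      omega
    have hl : cardFactors (fv t c n) = cardFactors d + cardFactors (fv t c n / d) := by
      rw [← ArithmeticFunction.cardFactors_mul hd2 hd3, hd1]
    rw [hl, pow_add, mul_one_div]
  · rw [if_neg hna]
    symm
    apply Finset.sum_eq_zero
    intro d hdm
    rw [hd d hdm, iv_fv h, if_neg hna]

open scoped Classical in
/-- the sums in `S_CHR` -/
noncomputable def Sr (t c : ℤ) (b : ℂ) (q a r N : ℕ) : ℂ :=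
  ∑ p ∈ (SP t c N).filter (Cd t c q a r), uu b p

open scoped Classical in
lemma split_r (h : Bs t c) (b : ℂ) {q a N : ℕ} (hq : 1 ≤ q) {p : ℕ × ℕ}
    (hp : p ∈ TP t c N ∩ SP t c N) :
    (if iv t c (p.1 * p.2) ≡ a [MOD q] then uu b p else 0) =
      ∑ r ∈ range q, if Cd t c q a r p then uu b p else 0 := by
  have hpT := (mem_inter.1 hp).1
  rw [mem_TP h] at hpT
  obtain ⟨n, hn1, hn2, hn3⟩ := hpT
  have hcd : ∀ r, Cd t c q a r p ↔ (n ≡ a [MOD q] ∧ p.1 ≡ r [MOD q]) := by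
    intro r
    constructor
    · rintro ⟨n', h0, h1, h2, h3⟩
      have h4 := (int_iff h p n').1 h1
      have : n' = n := (fv_mono h).injective (by rw [← h4, ← hn3])
      subst this
      exact ⟨h2, h3⟩
    · rintro ⟨h1, h2⟩
      refine ⟨n, ?_, (int_iff h p n).2 hn3, h1, h2⟩
      have : (1 : ℤ) ≤ n := by exact_mod_cast hn1
      linarith [h.t0]
  rw [hn3, iv_fv h]
  by_cases hna : n ≡ a [MOD q]
  · rw [if_pos hna, Finset.sum_eq_single (p.1 % q)]
    · rw [if_pos]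
      rw [hcd]
      exact ⟨hna, (Nat.mod_modEq _ _).symm⟩
    · intro r hr hne
      rw [if_neg]
      rw [hcd]
      rintro ⟨-, h⟩
      apply hne
      have h1 : p.1 % q = r % q := h
      rw [Nat.mod_eq_of_lt (mem_range.1 hr)] at h1
      exact h1.symm
    · intro h
      exact absurd (mem_range.2 (Nat.mod_lt _ hq)) h
  · rw [if_neg hna]
    symm
    apply Finset.sum_eq_zero
    intro r _
    rw [if_neg]
    rw [hcd]
    exact fun h => hna h.1

open scoped Classical in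
lemma Tl_bound (h : Bs t c) (h3 : S_SCNT t c) : ∃ C : ℝ, 0 ≤ C ∧ ∀ (b : ℂ), ‖b‖ = 1 →
    ∀ q a N : ℕ, 1 ≤ q → 1 ≤ N →
    ‖Tl t c b q a N - ∑ r ∈ range q, Sr t c b q a r N‖ ≤ C + q * ((c.toNat * c.toNat : ℕ) : ℝ) := by
  obtain ⟨C, hC0, hC⟩ := tail h h3
  refine ⟨C, hC0, fun b hb q a N hq hN => ?_⟩
  set v : ℕ × ℕ → ℂ := fun p => if iv t c (p.1 * p.2) ≡ a [MOD q] then uu b p else 0 with hv
  set BP := TP t c N ∩ SP t c N with hBP
  have hsplit := Finset.sum_sdiff (inter_subset_left : BP ⊆ TP t c N) (f := v)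
  have hS : ∀ r, Sr t c b q a r N =
      (∑ p ∈ SP t c N \ BP, if Cd t c q a r p then uu b p else 0) +
      ∑ p ∈ BP, if Cd t c q a r p then uu b p else 0 := by
    intro r
    unfold Sr
    rw [Finset.sum_filter]
    exact (Finset.sum_sdiff (inter_subset_right : BP ⊆ SP t c N)).symm
  have h1 : ∑ p ∈ BP, v p =
      ∑ r ∈ range q, ∑ p ∈ BP, if Cd t c q a r p then uu b p else 0 := by
    rw [Finset.sum_comm]
    exact Finset.sum_congr rfl fun p hp => split_r h b hq hp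
  have h2 : Tl t c b q a N - ∑ r ∈ range q, Sr t c b q a r N =
      ∑ p ∈ TP t c N \ BP, v p -
        ∑ r ∈ range q, ∑ p ∈ SP t c N \ BP, (if Cd t c q a r p then uu b p else 0) := by
    rw [Tl_eq h, ← hsplit, h1]
    simp only [hS]
    rw [Finset.sum_add_distrib]
    ring
  rw [h2]
  refine (norm_sub_le _ _).trans (add_le_add ?_ ?_)
  · refine (norm_sum_le _ _).trans ((Finset.sum_le_sum ?_).trans (hC N hN))
    intro p _
    simp only [hv]
    split_ifs
    · rw [norm_uu hb]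
    · rw [norm_zero]
      positivity
  · refine (norm_sum_le _ _).trans ?_
    have hin : ∀ r ∈ range q, ‖∑ p ∈ SP t c N \ BP, (if Cd t c q a r p then uu b p else 0 : ℂ)‖ ≤
        ((c.toNat * c.toNat : ℕ) : ℝ) := by
      intro r _
      refine (norm_sum_le _ _).trans ?_
      have : ∀ p ∈ SP t c N \ BP, ‖(if Cd t c q a r p then uu b p else 0 : ℂ)‖ ≤ 1 := by
        intro p hp
        split_ifs
        · rw [norm_uu hb]
          have h5 := (mem_SP h).1 (mem_sdiff.1 hp).1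
          have h6 : (1 : ℝ) ≤ p.1 := by exact_mod_cast h5.1
          have h7 : (1 : ℝ) ≤ max (p.1 : ℝ) p.2 := h6.trans (le_max_left _ _)
          rw [div_le_one (by linarith)]
          exact h7
        · rw [norm_zero]
          norm_num
      refine (Finset.sum_le_sum this).trans ?_
      rw [Finset.sum_const, nsmul_eq_mul, mul_one]
      exact_mod_cast card_lost h N
    refine (Finset.sum_le_sum hin).trans ?_
    rw [Finset.sum_const, card_range, nsmul_eq_mul]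

lemma Tl_tendsto (hB : Bs t c) (h : S_CHR t c) (h3 : S_SCNT t c) {k : ℕ} (hk : 1 ≤ k) {b : ℂ}
    (hbk : b ^ k = 1) (hb1 : b ≠ 1) {q : ℕ} (hq : 1 ≤ q) (a : ℕ) :
    Tendsto (fun N : ℕ => ‖Tl t c b q a N‖ / Real.log N) atTop (nhds 0) := by
  classical
  have hb : ‖b‖ = 1 := by
    have h1 : ‖b‖ ^ k = 1 := by rw [← norm_pow, hbk, norm_one]
    exact (pow_eq_one_iff_of_nonneg (norm_nonneg b) (by omega)).1 h1
  obtain ⟨C, hC0, hC⟩ := Tl_bound hB h3
  set C' : ℝ := C + q * ((c.toNat * c.toNat : ℕ) : ℝ) with hC'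
  have hS : ∀ r, Tendsto (fun N : ℕ => ‖Sr t c b q a r N‖ / Real.log N) atTop (nhds 0) := by
    intro r
    have h1 := (h k b b hk hbk hbk (Or.inl hb1) q a r hq).norm
    rw [norm_zero] at h1
    refine h1.congr' ?_
    filter_upwards [eventually_ge_atTop 1] with N hN
    rw [norm_div, Complex.norm_real, Real.norm_eq_abs,
      abs_of_nonneg (Real.log_natCast_nonneg N)]
    rfl
  have hlogt : Tendsto (fun N : ℕ => Real.log N) atTop atTop :=
    Real.tendsto_log_atTop.comp tendsto_natCast_atTop_atTop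
  have hc0 : Tendsto (fun N : ℕ => C' / Real.log N) atTop (nhds 0) :=
    hlogt.const_div_atTop _
  have hsum : Tendsto (fun N : ℕ => ∑ r ∈ range q, ‖Sr t c b q a r N‖ / Real.log N +
      C' / Real.log N) atTop (nhds 0) := by
    have := (tendsto_finsetSum (range q) (fun r _ => hS r)).add hc0
    simpa using this
  refine squeeze_zero' ?_ ?_ hsum
  · filter_upwards with N
    exact div_nonneg (norm_nonneg _) (Real.log_natCast_nonneg N)
  · filter_upwards [eventually_ge_atTop 2] with N hN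
    have hlog : 0 < Real.log N := Real.log_pos (by exact_mod_cast hN)
    rw [← Finset.sum_div, ← add_div]
    apply div_le_div_of_nonneg_right _ hlog.le
    have h1 := hC b hb q a N hq (by omega)
    have h2 : ‖Tl t c b q a N‖ ≤ ‖∑ r ∈ range q, Sr t c b q a r N‖ +
        ‖Tl t c b q a N - ∑ r ∈ range q, Sr t c b q a r N‖ := by
      have : Tl t c b q a N = ∑ r ∈ range q, Sr t c b q a r N +
        (Tl t c b q a N - ∑ r ∈ range q, Sr t c b q a r N) := by ring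
      calc ‖Tl t c b q a N‖ = ‖∑ r ∈ range q, Sr t c b q a r N +
            (Tl t c b q a N - ∑ r ∈ range q, Sr t c b q a r N)‖ := by rw [← this]
        _ ≤ _ := norm_add_le _ _
    have h3 : ‖∑ r ∈ range q, Sr t c b q a r N‖ ≤ ∑ r ∈ range q, ‖Sr t c b q a r N‖ :=
      norm_sum_le _ _
    linarith

/-- orthogonality -/
lemma orth {k : ℕ} (hk : 1 ≤ k) {ζ : ℂ} (hζ : IsPrimitiveRoot ζ k) (Om j : ℕ) :
    ∑ l ∈ range k, (ζ ^ l) ^ ((k - 1) * j) * (ζ ^ l) ^ Om = if Om ≡ j [MOD k] then (k : ℂ) else 0 := by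
  have h1 : ∀ l, (ζ ^ l) ^ ((k - 1) * j) * (ζ ^ l) ^ Om = (ζ ^ (Om + (k - 1) * j)) ^ l := by
    intro l
    rw [← pow_add, ← pow_mul, ← pow_mul]
    congr 1
    ring
  simp only [h1]
  have h2 : k ∣ Om + (k - 1) * j ↔ Om ≡ j [MOD k] := by
    have e : Om + (k - 1) * j + j = Om + k * j := by
      obtain ⟨k', rfl⟩ : ∃ k', k = k' + 1 := ⟨k - 1, by omega⟩
      simp only [Nat.add_sub_cancel]
      ring
    constructor
    · intro h
      have h3 : Om + (k - 1) * j ≡ 0 [MOD k] := (Nat.modEq_zero_iff_dvd).2 h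
      have h4 := h3.add_right j
      rw [e, zero_add] at h4
      have h5 : Om + k * j ≡ Om [MOD k] := by
        unfold Nat.ModEq
        simp
      exact h5.symm.trans h4
    · intro h
      have h5 : Om + k * j ≡ Om [MOD k] := by
        unfold Nat.ModEq
        simp
      have h6 : Om + (k - 1) * j + j ≡ 0 + j [MOD k] := by
        rw [e, zero_add]
        exact h5.trans h
      exact (Nat.modEq_zero_iff_dvd).1 (Nat.ModEq.add_right_cancel' j h6)
  by_cases hd : Om ≡ j [MOD k]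
  · rw [if_pos hd]
    have h3 : ζ ^ (Om + (k - 1) * j) = 1 := (hζ.pow_eq_one_iff_dvd _).2 (h2.2 hd)
    rw [h3]
    simp
  · rw [if_neg hd]
    have h3 : ζ ^ (Om + (k - 1) * j) ≠ 1 := fun h => hd (h2.1 ((hζ.pow_eq_one_iff_dvd _).1 h))
    have h4 : (ζ ^ (Om + (k - 1) * j)) ^ k = 1 := by
      rw [← pow_mul, mul_comm, pow_mul, hζ.pow_eq_one, one_pow]
    rw [geom_sum_eq h3, h4, sub_self, zero_div]

theorem finn {f : ℕ} {χ : DirichletCharacter ℂ f} (hF : Fd t c f χ) (h : S_CHR t c)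
    (h2 : S_SLOWQ t c) (h3 : S_SCNT t c) : S_FINN t c := by
  have hB := bs_of_fd hF
  intro k hk q a hq j
  obtain ⟨c₁, hc, N₀, hW⟩ := h2 q a hq
  set ζ : ℂ := Complex.exp (2 * Real.pi * Complex.I / k) with hζd
  have hζ : IsPrimitiveRoot ζ k := Complex.isPrimitiveRoot_exp k (by omega)
  set W : ℕ → ℝ := fun N => ∑ n ∈ (Icc 1 N).filter (fun n => n ≡ a [MOD q]), wn t c n with hWd
  set J : ℕ → ℝ := fun N => ∑ n ∈ (Icc 1 N).filter (fun n => n ≡ a [MOD q] ∧
    cardFactors (fv t c n) ≡ j [MOD k]), wn t c n with hJd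
  have hkpos : (0:ℝ) < k := by exact_mod_cast hk
  have hJ : ∀ N, ((k : ℝ) * J N - W N : ℝ) =
      ∑ l ∈ Ico 1 k, (ζ ^ l) ^ ((k - 1) * j) * Tl t c (ζ ^ l) q a N := by
    intro N
    have h4 : ((k : ℂ) * (J N : ℂ)) =
        ∑ l ∈ range k, (ζ ^ l) ^ ((k - 1) * j) * Tl t c (ζ ^ l) q a N := by
      unfold Tl
      simp only [Finset.mul_sum]
      rw [Finset.sum_comm]
      simp only [hJd]
      push_cast
      rw [Finset.mul_sum, ← Finset.filter_filter, Finset.sum_filter]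
      refine Finset.sum_congr rfl fun n _ => ?_
      have h5 := orth hk hζ (cardFactors (fv t c n)) j
      have h6 : ∑ l ∈ range k, (ζ ^ l) ^ ((k - 1) * j) *
          ((ζ ^ l) ^ cardFactors (fv t c n) * (wn t c n : ℂ)) =
          (∑ l ∈ range k, (ζ ^ l) ^ ((k - 1) * j) * (ζ ^ l) ^ cardFactors (fv t c n)) *
            (wn t c n : ℂ) := by
        rw [Finset.sum_mul]
        refine Finset.sum_congr rfl fun l _ => ?_
        ring
      rw [h6, h5]
      split_ifs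
      · rfl
      · rw [zero_mul]
    have h7 : Tl t c (ζ ^ 0) q a N = (W N : ℂ) := by
      unfold Tl
      simp only [pow_zero, one_pow, one_mul, hWd]
      push_cast
      rfl
    have h8 : ∑ l ∈ range k, (ζ ^ l) ^ ((k - 1) * j) * Tl t c (ζ ^ l) q a N =
        (W N : ℂ) + ∑ l ∈ Ico 1 k, (ζ ^ l) ^ ((k - 1) * j) * Tl t c (ζ ^ l) q a N := by
      rw [Finset.range_eq_Ico, Finset.sum_eq_sum_Ico_succ_bot (by omega), h7, pow_zero, one_pow,
        one_mul]
    push_cast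
    rw [h4, h8]
    ring
  have hζn : ‖ζ‖ = 1 := hζ.norm'_eq_one (by omega)
  have hb : ∀ N, |(k : ℝ) * J N - W N| ≤ ∑ l ∈ Ico 1 k, ‖Tl t c (ζ ^ l) q a N‖ := by
    intro N
    have h4 : |(k : ℝ) * J N - W N| = ‖(((k : ℝ) * J N - W N : ℝ) : ℂ)‖ := by
      rw [Complex.norm_real, Real.norm_eq_abs]
    rw [h4, hJ]
    refine (norm_sum_le _ _).trans (Finset.sum_le_sum fun l _ => ?_)
    rw [norm_mul, norm_pow, norm_pow, hζn, one_pow, one_pow, one_mul]
  have hT : ∀ l ∈ Ico 1 k, Tendsto (fun N : ℕ => ‖Tl t c (ζ ^ l) q a N‖ / Real.log N) atTop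
      (nhds 0) := by
    intro l hl
    rw [mem_Ico] at hl
    apply Tl_tendsto hB h h3 hk _ _ hq a
    · rw [← pow_mul, mul_comm, pow_mul, hζ.pow_eq_one, one_pow]
    · intro h5
      have := (hζ.pow_eq_one_iff_dvd _).1 h5
      have := Nat.le_of_dvd (by omega) this
      omega
  have hsum : Tendsto (fun N : ℕ => (∑ l ∈ Ico 1 k, ‖Tl t c (ζ ^ l) q a N‖ / Real.log N) *
      (1 / (c₁ * k))) atTop (nhds 0) := by
    have := (tendsto_finsetSum (Ico 1 k) hT).mul_const (1 / (c₁ * k))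
    simpa using this
  rw [tendsto_iff_norm_sub_tendsto_zero]
  refine squeeze_zero' (Eventually.of_forall fun N => norm_nonneg _) ?_ hsum
  filter_upwards [eventually_ge_atTop 2, eventually_ge_atTop N₀] with N hN hN0
  have hlog : 0 < Real.log N := Real.log_pos (by exact_mod_cast hN)
  have hWN : c₁ * Real.log N ≤ W N := hW N hN0
  have hWpos : 0 < W N := lt_of_lt_of_le (mul_pos hc hlog) hWN
  change ‖J N / W N - 1 / (k : ℝ)‖ ≤ _
  have e : J N / W N - 1 / (k : ℝ) = ((k : ℝ) * J N - W N) / (W N * k) := by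
    field_simp
  rw [e, norm_div, Real.norm_eq_abs, Real.norm_eq_abs, abs_of_pos (by positivity : 0 < W N * k)]
  have hS0 : 0 ≤ ∑ l ∈ Ico 1 k, ‖Tl t c (ζ ^ l) q a N‖ :=
    Finset.sum_nonneg fun _ _ => norm_nonneg _
  calc |(k : ℝ) * J N - W N| / (W N * k) ≤
        (∑ l ∈ Ico 1 k, ‖Tl t c (ζ ^ l) q a N‖) / (W N * k) :=
        div_le_div_of_nonneg_right (hb N) (by positivity)
    _ ≤ (∑ l ∈ Ico 1 k, ‖Tl t c (ζ ^ l) q a N‖) / (c₁ * Real.log N * k) := by
        apply div_le_div_of_nonneg_left hS0 (by positivity)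
        exact mul_le_mul_of_nonneg_right hWN hkpos.le
    _ = (∑ l ∈ Ico 1 k, ‖Tl t c (ζ ^ l) q a N‖ / Real.log N) * (1 / (c₁ * k)) := by
        rw [← Finset.sum_div]
        field_simp

end Pool.Agent.W589.EG
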